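import Pool.Agent.P.MP_c47ae4_an.Main

set_option autoImplicit false

namespace Pool.Agent.Results.MP_c47ae4_an.MaximalBound

open MeasureTheory Pool.Agent.P.MP_c47ae4_an

/-- The maximal operator of the Riesz logarithmic means along `M n` is bounded from `H p` to
`L p` for every bounded Vilenkin group and every `0 < p ≤ 1`. -/
theorem result (m : ℕ → ℕ) (hm : ∀ k, 2 ≤ m k) (hb : BddAbove (Set.range m))
    (p : ℝ) (hp0 : 0 < p) (hp1 : p ≤ 1) :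
    ∃ C : NNReal, ∀ f : ℕ → G m → ℂ, Martingale f (filt m) (mu m) →
      (∫⁻ x, (⨆ n, ‖R m f (M m n) x‖ₑ) ^ p ∂(mu m)) ^ (1 / p) ≤
        C * (∫⁻ x, (⨆ n, ‖f n x‖ₑ) ^ p ∂(mu m)) ^ (1 / p) := by
  obtain ⟨B, hB⟩ := hb
  have hB' : ∀ k, m k ≤ B := fun k => hB ⟨k, rfl⟩
  have : ∀ k, NeZero (m k) := fun k => ⟨by have := hm k; omega⟩
  have hp : 0 ≤ 1 / p := by positivity
  refine ⟨(1 + 2 * (cst B p + cst B p * (1 / (1 - (3 / 4) ^ (p / 2))))).toNNReal ^ (1 / p),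
    fun f hf => ?_⟩
  refine (ENNReal.rpow_le_rpow (maximal hm hB' hf hp0 hp1) hp).trans (le_of_eq ?_)
  rw [ENNReal.mul_rpow_of_nonneg _ _ hp, ENNReal.coe_rpow_of_nonneg _ hp]
  rfl

end Pool.Agent.Results.MP_c47ae4_an.MaximalBound
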